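import Mathlib
import Pool.Agent.Helper92.PO.Stmts

set_option autoImplicit false

namespace Pool.Agent.Helper92.PO

open Classical in
/-- direction of the parent -/
noncomputable def lbeK (P : Finset Cell) (D : Cell → ℕ) (a : Cell) : ℕ :=
  if (a.1 - 1, a.2) ∈ P ∧ D (a.1 - 1, a.2) + 1 = D a then 2
  else if (a.1, a.2 - 1) ∈ P ∧ D (a.1, a.2 - 1) + 1 = D a then 3
  else if (a.1 + 1, a.2) ∈ P ∧ D (a.1 + 1, a.2) + 1 = D a then 4
  else 5

open Classical in
/-- the labelling -/
noncomputable def lbeC (P : Finset Cell) (D : Cell → ℕ) (a : Cell) : Lab :=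
  if a ∉ P then (0, 0) else if a = ((0, 0) : Cell) then (1, 0) else (lbeK P D a, D a)

theorem lbeK_bd (P : Finset Cell) (D : Cell → ℕ) (a : Cell) :
    2 ≤ lbeK P D a ∧ lbeK P D a ≤ 5 := by
  unfold lbeK
  split_ifs <;> omega

theorem lbeC_notMem (P : Finset Cell) (D : Cell → ℕ) (a : Cell) (h : a ∉ P) :
    lbeC P D a = (0, 0) := by
  unfold lbeC
  rw [if_pos h]

theorem lbeC_zero (P : Finset Cell) (D : Cell → ℕ) (h : ((0, 0) : Cell) ∈ P) :
    lbeC P D (0, 0) = (1, 0) := by
  unfold lbeC
  rw [if_neg (not_not.mpr h), if_pos rfl]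

theorem lbeC_mem (P : Finset Cell) (D : Cell → ℕ) (a : Cell) (h : a ∈ P)
    (h0 : a ≠ ((0, 0) : Cell)) : lbeC P D a = (lbeK P D a, D a) := by
  unfold lbeC
  rw [if_neg (not_not.mpr h), if_neg h0]

theorem lbeC_snd (P : Finset Cell) (D : Cell → ℕ) (hD0 : D (0, 0) = 0) (a : Cell) (h : a ∈ P) :
    (lbeC P D a).2 = D a := by
  by_cases h0 : a = ((0, 0) : Cell)
  · subst h0
    rw [lbeC_zero P D h, hD0]
  · rw [lbeC_mem P D a h h0]

theorem lbeC_fst_ne (P : Finset Cell) (D : Cell → ℕ) (a : Cell) :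
    a ∈ P ↔ (lbeC P D a).1 ≠ 0 := by
  constructor
  · intro h
    by_cases h0 : a = ((0, 0) : Cell)
    · subst h0
      rw [lbeC_zero P D h]
      decide
    · rw [lbeC_mem P D a h h0]
      have := (lbeK_bd P D a).1
      show lbeK P D a ≠ 0
      omega
  · intro h
    by_contra hcon
    exact h (by rw [lbeC_notMem P D a hcon])

theorem lbeC_ispar (P : Finset Cell) (D : Cell → ℕ) (hD0 : D (0, 0) = 0) (a : Cell) (v : Lab) :
    ispar v (lbeC P D a) = true ↔ (a ∈ P ∧ D a + 1 = v.2) := by
  unfold ispar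
  by_cases h : a ∈ P
  · have h1 := (lbeC_fst_ne P D a).mp h
    rw [lbeC_snd P D hD0 a h]
    simp [h, h1]
  · rw [lbeC_notMem P D a h]
    simp [h]

theorem lbe_sm (P : Finset Cell) (D : Cell → ℕ) (hD0 : D (0, 0) = 0)
    (hD2 : ∀ a ∈ P, ∀ b ∈ P, Adj a b → D a ≤ D b + 1) (a b : Cell) (hab : Adj a b)
    (hba : Adj b a) : sm (lbeC P D a) (lbeC P D b) = true := by
  unfold sm
  by_cases ha : a ∈ P
  · by_cases hb : b ∈ P
    · rw [lbeC_snd P D hD0 a ha, lbeC_snd P D hD0 b hb]
      have h1 := hD2 a ha b hb hab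
      have h2 := hD2 b hb a ha hba
      simp [h1, h2]
    · rw [lbeC_notMem P D b hb]
      simp
  · rw [lbeC_notMem P D a ha]
    simp

/-- general principle for the parent constraints -/
theorem lbe_par (P : Finset Cell) (D : Cell → ℕ) (hD0 : D (0, 0) = 0) (c : ℕ) (a b : Cell)
    (h1 : b ∈ P → b ≠ ((0, 0) : Cell) → lbeK P D b = c → (a ∈ P ∧ D a + 1 = D b))
    (h2 : b ∈ P → b ≠ ((0, 0) : Cell) → c < lbeK P D b → ¬ (a ∈ P ∧ D a + 1 = D b)) :
    par c (lbeC P D b) (lbeC P D a) = true := by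
  unfold par
  by_cases hb : b ∈ P
  · by_cases hb0 : b = ((0, 0) : Cell)
    · subst hb0
      rw [lbeC_zero P D hb]
      simp
    · have hsp := lbeC_ispar P D hD0 a (lbeC P D b)
      rw [lbeC_snd P D hD0 b hb] at hsp
      have hfst : (lbeC P D b).1 = lbeK P D b := by rw [lbeC_mem P D b hb hb0]
      rw [hfst]
      split_ifs with g1 g2 g3
      · rfl
      · exact hsp.mpr (h1 hb hb0 g2)
      · have h3 := h2 hb hb0 g3
        have h4 : ¬ (ispar (lbeC P D b) (lbeC P D a) = true) := fun h => h3 (hsp.mp h)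
        simp only [Bool.not_eq_true] at h4
        rw [h4]
        rfl
      · rfl
  · rw [lbeC_notMem P D b hb]
    simp

theorem st_LBE (hDIS : ST_DIS) : ST_LBE := by
  intro n P hP
  obtain ⟨D, hD0, hD1, hD2, hD3⟩ := hDIS n P hP
  have h00 : ((0, 0) : Cell) ∈ P := hP.2.2.1
  have adjH : ∀ a : Cell, Adj a (a.1 + 1, a.2) ∧ Adj (a.1 + 1, a.2) a := by
    intro a
    unfold Adj
    constructor
    · have e : a.1 - (a.1 + 1) = -1 := by ring
      show |a.1 - (a.1 + 1)| + |a.2 - a.2| = 1
      rw [e, sub_self]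
      decide
    · have e : a.1 + 1 - a.1 = 1 := by ring
      show |a.1 + 1 - a.1| + |a.2 - a.2| = 1
      rw [e, sub_self]
      decide
  have adjV : ∀ a : Cell, Adj a (a.1, a.2 + 1) ∧ Adj (a.1, a.2 + 1) a := by
    intro a
    unfold Adj
    constructor
    · have e : a.2 - (a.2 + 1) = -1 := by ring
      show |a.1 - a.1| + |a.2 - (a.2 + 1)| = 1
      rw [e, sub_self]
      decide
    · have e : a.2 + 1 - a.2 = 1 := by ring
      show |a.1 - a.1| + |a.2 + 1 - a.2| = 1
      rw [e, sub_self]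
      decide
  refine ⟨lbeC P D, lbeC_fst_ne P D, ?_, ?_, ?_, ?_⟩
  · intro a
    unfold labs
    by_cases ha : a ∈ P
    · by_cases h0 : a = ((0, 0) : Cell)
      · subst h0
        rw [lbeC_zero P D h00]
        simp
      · rw [lbeC_mem P D a ha h0]
        obtain ⟨b, -, -, hb⟩ := hD1 a ha h0
        have h3 := hD3 a ha
        have hbd := lbeK_bd P D a
        refine List.mem_cons_of_mem _ (List.mem_cons_of_mem _ ?_)
        rw [List.mem_flatMap]
        refine ⟨D b, List.mem_range.mpr (by omega), ?_⟩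
        rw [← hb]
        have hcases : lbeK P D a = 2 ∨ lbeK P D a = 3 ∨ lbeK P D a = 4 ∨ lbeK P D a = 5 := by
          omega
        rcases hcases with h | h | h | h <;> rw [h] <;> simp
    · rw [lbeC_notMem P D a ha]
      exact List.mem_cons_self
  · intro a
    constructor
    · intro h
      have ha : a ∈ P := by
        rw [lbeC_fst_ne P D a, h]
        decide
      by_contra h0
      rw [lbeC_mem P D a ha h0] at h
      have := (lbeK_bd P D a).1
      have h' : lbeK P D a = 1 := h
      omega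
    · rintro rfl
      rw [lbeC_zero P D h00]
  · intro a
    unfold Hc
    rw [Bool.and_eq_true, Bool.and_eq_true]
    refine ⟨lbe_sm P D hD0 hD2 _ _ (adjH a).1 (adjH a).2, ?_, ?_⟩
    · refine lbe_par P D hD0 2 a (a.1 + 1, a.2) ?_ ?_
      · intro _ _ hk
        unfold lbeK at hk
        have e : ((a.1 + 1, a.2).1 - 1, (a.1 + 1, a.2).2) = a := by
          show (a.1 + 1 - 1, a.2) = a
          rw [add_sub_cancel_right]
        rw [e] at hk
        split_ifs at hk <;> omega
      · intro _ _ hk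
        unfold lbeK at hk
        have e : ((a.1 + 1, a.2).1 - 1, (a.1 + 1, a.2).2) = a := by
          show (a.1 + 1 - 1, a.2) = a
          rw [add_sub_cancel_right]
        rw [e] at hk
        by_contra hcon
        rw [if_pos hcon] at hk
        omega
    · refine lbe_par P D hD0 4 (a.1 + 1, a.2) a ?_ ?_
      · intro _ _ hk
        unfold lbeK at hk
        split_ifs at hk <;> omega
      · intro _ _ hk
        unfold lbeK at hk
        split_ifs at hk <;> omega
  · intro a
    unfold Vc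
    rw [Bool.and_eq_true, Bool.and_eq_true]
    refine ⟨lbe_sm P D hD0 hD2 _ _ (adjV a).1 (adjV a).2, ?_, ?_⟩
    · refine lbe_par P D hD0 3 a (a.1, a.2 + 1) ?_ ?_
      · intro _ _ hk
        unfold lbeK at hk
        have e : ((a.1, a.2 + 1).1, (a.1, a.2 + 1).2 - 1) = a := by
          show (a.1, a.2 + 1 - 1) = a
          rw [add_sub_cancel_right]
        rw [e] at hk
        split_ifs at hk <;> omega
      · intro _ _ hk
        unfold lbeK at hk
        have e : ((a.1, a.2 + 1).1, (a.1, a.2 + 1).2 - 1) = a := by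
          show (a.1, a.2 + 1 - 1) = a
          rw [add_sub_cancel_right]
        rw [e] at hk
        split_ifs at hk <;> omega
    · refine lbe_par P D hD0 5 (a.1, a.2 + 1) a ?_ ?_
      · intro ha ha0 hk
        unfold lbeK at hk
        have g1 : ¬ ((a.1 - 1, a.2) ∈ P ∧ D (a.1 - 1, a.2) + 1 = D a) := by
          intro h
          rw [if_pos h] at hk
          omega
        rw [if_neg g1] at hk
        have g2 : ¬ ((a.1, a.2 - 1) ∈ P ∧ D (a.1, a.2 - 1) + 1 = D a) := by
          intro h
          rw [if_pos h] at hk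
          omega
        rw [if_neg g2] at hk
        have g3 : ¬ ((a.1 + 1, a.2) ∈ P ∧ D (a.1 + 1, a.2) + 1 = D a) := by
          intro h
          rw [if_pos h] at hk
          omega
        obtain ⟨b, hb, hadj, hDb⟩ := hD1 a ha ha0
        have key : b = (a.1 - 1, a.2) ∨ b = (a.1, a.2 - 1) ∨ b = (a.1 + 1, a.2) ∨
            b = (a.1, a.2 + 1) := by
          obtain ⟨a1, a2⟩ := a
          obtain ⟨b1, b2⟩ := b
          unfold Adj at hadj
          simp only at hadj
          simp only [Prod.mk.injEq]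
          rcases abs_cases (a1 - b1) with ⟨e1, _⟩ | ⟨e1, _⟩ <;>
            rcases abs_cases (a2 - b2) with ⟨e2, _⟩ | ⟨e2, _⟩ <;>
            rw [e1, e2] at hadj <;> omega
        rcases key with h | h | h | h
        · rw [h] at hb hDb
          exact absurd ⟨hb, hDb⟩ g1
        · rw [h] at hb hDb
          exact absurd ⟨hb, hDb⟩ g2
        · rw [h] at hb hDb
          exact absurd ⟨hb, hDb⟩ g3
        · rw [h] at hb hDb
          exact ⟨hb, hDb⟩
      · intro _ _ hk
        have := (lbeK_bd P D a).2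
        omega

end Pool.Agent.Helper92.PO
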