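import Mathlib
import Pool.Agent.Helper92.PO.Stmts

set_option autoImplicit false

namespace Pool.Agent.Helper92.PO

open Function Pool.Agent.Helper52.Poly

theorem pnxt_one {γ : Type} [Enc γ] {v : γ → Lab} (hv : PF v) : PF (fun c => one (v c)) :=
  PF.ite (PF.eqNat (PF.fst' hv) (PF.const (0 : ℕ))) (PF.const (0 : ℕ)) (PF.const (1 : ℕ))

theorem pnxt_hd {γ : Type} [Enc γ] {q : γ → Que} (hq : PF q) : PF (fun c => hd (q c)) :=
  PF.headD hq (PF.const (((0, 0), 0) : Lab × ℕ))

theorem st_PNXT : ST_PNXT := by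
  intro γ _ st v hst hv
  have h1 : PF (fun c => (hd (st c).2).2 + one (v c)) :=
    PF.add (PF.snd' (pnxt_hd (PF.snd' hst))) (pnxt_one hv)
  have h2 : PF (fun c => [(v c, (hd (st c).2).2 + one (v c))]) :=
    PF.cons (PF.pair hv h1) (PF.const ([] : Que))
  have h3 : PF (fun c => (st c).2.tail ++ [(v c, (hd (st c).2).2 + one (v c))]) :=
    PF.append (PF.tail (PF.snd' hst)) h2
  exact PF.pair hv h3

end Pool.Agent.Helper92.PO
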